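import Pool.Agent.X123.Salem

/-!
# An algebraic integer `α` for which the set of the values `limsup ‖ξ α^n‖` is not closed

The number `α = (1 + √3 + √(2√3)) / 2`, the largest root of `X^4 - 2 X^3 - 2 X + 1`, is a Salem
number. The set `S(α)` is dense in `[0, 1/2]`, but `S(α) ∩ [0, 1/6)` is countable.
-/

set_option autoImplicit false

namespace Pool.Agent.Results.MP_b81a64_nt.NotAlwaysClosed

open Polynomial Filter Topology

/-- The distance from `x` to the nearest integer. -/
noncomputable def distInt (x : ℝ) : ℝ := |x - round x|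

/-- `S(α)`: the set of the upper limits of `‖ξ α^n‖` as `n` tends to infinity, `ξ` real. -/
noncomputable def S (α : ℝ) : Set ℝ :=
  {t | ∃ ξ : ℝ, t = limsup (fun n : ℕ => distInt (ξ * α ^ n)) atTop}

/-- The algebraic integer `α = (1 + √3 + √(2√3)) / 2 > 1`, for which `S(α)` is not closed. -/
theorem result : 1 < (1 + √3 + √(2 * √3)) / 2 ∧ IsIntegral ℤ ((1 + √3 + √(2 * √3)) / 2) ∧
    ¬ IsClosed (S ((1 + √3 + √(2 * √3)) / 2)) :=
  ⟨X123.Salem.salem_α₀.1, X123.Salem.salem_α₀.2.1,
    X123.Salem.geo_not_closed X123.Salem.salem_α₀⟩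

end Pool.Agent.Results.MP_b81a64_nt.NotAlwaysClosed
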